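import Mathlib

/-!
# Local metric dimension: colourings without bad edges

For a colouring `c : V → Fin k` of the vertices of a graph, an edge `uv` is *bad* when `u`, `v` and all
vertices adjacent to exactly one of `u`, `v` have the same colour.  We show that a connected graph with
at least `k + 2` vertices and no clique on `k + 2` vertices (`k ≥ 2`) has a colouring with no bad edge.
-/

set_option autoImplicit false

namespace Pool.Agent.Y780.LocalDim

variable {V : Type} {k : ℕ}

/-- The edge `uv` is *bad* for the colouring `c`: it is monochromatic, and no vertex of another colour is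
adjacent to exactly one of `u`, `v`. -/
def Bad (G : SimpleGraph V) (c : V → Fin k) (u v : V) : Prop :=
  G.Adj u v ∧ c u = c v ∧ ∀ w, c w ≠ c u → (G.Adj u w ↔ G.Adj v w)

theorem Bad.symm {G : SimpleGraph V} {c : V → Fin k} {u v : V} (h : Bad G c u v) : Bad G c v u :=
  ⟨h.1.symm, h.2.1.symm, fun w hw => (h.2.2 w (by rw [h.2.1]; exact hw)).symm⟩

/-- Minimality of the set of bad pairs, with respect to inclusion. -/
def Minimal (G : SimpleGraph V) (c : V → Fin k) : Prop :=
  ∀ c' : V → Fin k, (∀ p q, Bad G c' p q → Bad G c p q) → ∀ p q, Bad G c p q → Bad G c' p q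

theorem exists_minimal [Fintype V] (G : SimpleGraph V) (hk : 0 < k) :
    ∃ c : V → Fin k, Minimal G c := by
  classical
  obtain ⟨c, -, hc⟩ := Finset.exists_min_image (Finset.univ : Finset (V → Fin k))
    (fun c => ((Finset.univ : Finset (V × V)).filter (fun p => Bad G c p.1 p.2)).card)
    ⟨fun _ => ⟨0, hk⟩, Finset.mem_univ _⟩
  refine ⟨c, fun c' h p q hpq => ?_⟩
  by_contra hn
  have h1 := hc c' (Finset.mem_univ _)
  have h2 : (Finset.univ : Finset (V × V)).filter (fun p => Bad G c' p.1 p.2) ⊂
      (Finset.univ : Finset (V × V)).filter (fun p => Bad G c p.1 p.2) := by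
    rw [Finset.ssubset_iff_of_subset]
    · exact ⟨(p, q), by simp [hpq], by simp [hn]⟩
    · intro x hx
      simp only [Finset.mem_filter, Finset.mem_univ, true_and] at hx ⊢
      exact h _ _ hx
  exact absurd (Finset.card_lt_card h2) (not_lt.mpr h1)

/-- The vertices which could become bad partners of `u` when `u` gets colour `j`. -/
def X (G : SimpleGraph V) (c : V → Fin k) (u : V) (j : Fin k) (x : V) : Prop :=
  c x = j ∧ G.Adj u x ∧ ∀ w, w ≠ u → c w ≠ j → (G.Adj u w ↔ G.Adj x w)

theorem step1 {G : SimpleGraph V} {c : V → Fin k} (hmin : Minimal G c) {u v : V} (h : Bad G c u v)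
    {j : Fin k} (hj : j ≠ c u) : ∃ x, X G c u j x := by
  classical
  by_contra hX
  push Not at hX
  have hvu : v ≠ u := h.1.ne'
  have hu : Function.update c u j u = j := by simp
  have ho : ∀ z, z ≠ u → Function.update c u j z = c z := fun z hz => by simp [hz]
  have noU : ∀ q, ¬ Bad G (Function.update c u j) u q := by
    intro q hq
    have hqu : q ≠ u := hq.1.ne'
    refine hX q ⟨?_, hq.1, ?_⟩
    · have := hq.2.1
      rw [hu, ho q hqu] at this
      exact this.symm
    · intro w hw hwj
      refine hq.2.2 w ?_
      rw [hu, ho w hw]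
      exact hwj
  have key : ∀ p q, Bad G (Function.update c u j) p q → Bad G c p q := by
    intro p q hb
    have hp : p ≠ u := by rintro rfl; exact noU q hb
    have hq : q ≠ u := by rintro rfl; exact noU p hb.symm
    refine ⟨hb.1, ?_, ?_⟩
    · have := hb.2.1
      rwa [ho p hp, ho q hq] at this
    · intro w hw
      have hb2 := hb.2.2
      rw [ho p hp] at hb2
      by_cases hwu : w = u
      · subst hwu
        by_cases hpj : c p = j
        · -- use `v`
          have hv : G.Adj p v ↔ G.Adj q v := by
            refine hb2 v ?_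
            rw [ho v hvu, hpj, ← h.2.1]
            exact hj.symm
          have hcq : c q = c p := by
            have := hb.2.1
            rwa [ho p hp, ho q hq, eq_comm] at this
          have e1 := h.2.2 p (by rw [hpj]; exact hj)
          have e2 := h.2.2 q (by rw [hcq, hpj]; exact hj)
          rw [G.adj_comm p w, G.adj_comm q w, e1, e2, G.adj_comm v p, G.adj_comm v q, hv]
        · refine hb2 w ?_
          rw [hu]
          exact fun e => hpj e.symm
      · refine hb2 w ?_
        rw [ho w hwu]
        exact hw
  have := hmin _ key u v h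
  have h2 := this.2.1
  rw [hu, ho v hvu, ← h.2.1] at h2
  exact hj h2

/-- Swapping the colours of `u` and `x`. -/
theorem step3 {G : SimpleGraph V} {c : V → Fin k} (hmin : Minimal G c) {u v : V} (h : Bad G c u v)
    {j : Fin k} (hj : j ≠ c u) {x : V} (hx : X G c u j x)
    (hind : ∀ y, c y = j → G.Adj u y → ¬ G.Adj x y) :
    ∃ w, c w = c u ∧ w ≠ u ∧ G.Adj x w ∧
      ∀ z, z ≠ x → (z = u ∨ c z ≠ c u) → (G.Adj x z ↔ G.Adj w z) := by
  classical
  by_contra hX
  push Not at hX
  obtain ⟨hxj, hux, hxw⟩ := hx
  have hvu : v ≠ u := h.1.ne'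
  have hxu : x ≠ u := hux.ne'
  have hvx : v ≠ x := by
    rintro rfl
    exact hj (hxj.symm.trans h.2.1.symm)
  set d : V → Fin k := Function.update (Function.update c u j) x (c u) with hd
  have du : d u = j := by simp [hd, hxu.symm]
  have dx : d x = c u := by simp [hd]
  have ho : ∀ z, z ≠ u → z ≠ x → d z = c z := fun z hz hz' => by simp [hd, hz, hz']
  have noU : ∀ q, ¬ Bad G d u q := by
    intro q hq
    have hqu : q ≠ u := hq.1.ne'
    have hqx : q ≠ x := by
      rintro rfl
      have := hq.2.1
      rw [du, dx] at this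
      exact hj this
    have hcq : c q = j := by
      have := hq.2.1
      rw [du, ho q hqu hqx] at this
      exact this.symm
    have := (hq.2.2 x (by rw [du, dx]; exact hj.symm)).1 hux
    exact hind q hcq hq.1 this.symm
  have noX : ∀ q, ¬ Bad G d x q := by
    intro q hq
    have hqx : q ≠ x := hq.1.ne'
    have hqu : q ≠ u := by
      rintro rfl
      exact noU x hq.symm
    have hcq : c q = c u := by
      have := hq.2.1
      rw [dx, ho q hqu hqx] at this
      exact this.symm
    obtain ⟨z, hz, hz', hz''⟩ := hX q hcq hqu hq.1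
    have : G.Adj x z ↔ G.Adj q z := by
      refine hq.2.2 z ?_
      rw [dx]
      by_cases hzu : z = u
      · rw [hzu, du]; exact hj
      · rw [ho z hzu hz]
        exact hz'.resolve_left hzu
    rcases hz'' with ⟨a, b⟩ | ⟨a, b⟩
    · exact b (this.1 a)
    · exact a (this.2 b)
  have key : ∀ p q, Bad G d p q → Bad G c p q := by
    intro p q hb
    have hpu : p ≠ u := by rintro rfl; exact noU q hb
    have hqu : q ≠ u := by rintro rfl; exact noU p hb.symm
    have hpx : p ≠ x := by rintro rfl; exact noX q hb
    have hqx : q ≠ x := by rintro rfl; exact noX p hb.symm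
    have hcq : c p = c q := by
      have := hb.2.1
      rwa [ho p hpu hpx, ho q hqu hqx] at this
    refine ⟨hb.1, hcq, ?_⟩
    intro w hw
    have hb2 := hb.2.2
    rw [ho p hpu hpx] at hb2
    by_cases hwu : w = u
    · subst hwu
      by_cases hpj : c p = j
      · have hv : G.Adj p v ↔ G.Adj q v := by
          refine hb2 v ?_
          rw [ho v hvu hvx, hpj, ← h.2.1]
          exact hj.symm
        have e1 := h.2.2 p (by rw [hpj]; exact hj)
        have e2 := h.2.2 q (by rw [← hcq, hpj]; exact hj)
        rw [G.adj_comm p w, G.adj_comm q w, e1, e2, G.adj_comm v p, G.adj_comm v q, hv]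
      · refine hb2 w ?_
        rw [du]
        exact fun e => hpj e.symm
    · by_cases hwx : w = x
      · subst hwx
        by_cases hpi : c p = c u
        · have hu : G.Adj p u ↔ G.Adj q u := by
            refine hb2 u ?_
            rw [du, hpi]
            exact hj
          have e1 := hxw p hpu (by rw [hpi]; exact hj.symm)
          have e2 := hxw q hqu (by rw [← hcq, hpi]; exact hj.symm)
          rw [G.adj_comm p w, G.adj_comm q w, ← e1, ← e2, G.adj_comm u p, G.adj_comm u q, hu]
        · refine hb2 w ?_
          rw [dx]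
          exact fun e => hpi e.symm
      · refine hb2 w ?_
        rw [ho w hwu hwx]
        exact hw
  have := hmin _ key u v h
  exact noU v this

/-- Clique argument: no vertex is adjacent to `u`, `v` and all the `x l`. -/
theorem clique {G : SimpleGraph V} {c : V → Fin k} (hcf : G.CliqueFree (k + 2)) {u v : V}
    (h : Bad G c u v) (x : Fin k → V) (hx : ∀ l, l ≠ c u → X G c u l (x l)) (y : V)
    (hyu : G.Adj y u) (hyv : G.Adj y v) (hyx : ∀ l, l ≠ c u → G.Adj y (x l)) : False := by
  classical
  -- the map
  let g : Option (Option (Fin k)) → V := fun o =>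
    match o with
    | none => y
    | some none => u
    | some (some l) => if l = c u then v else x l
  have hvx : ∀ l, l ≠ c u → G.Adj v (x l) := by
    intro l hl
    obtain ⟨h1, h2, h3⟩ := hx l hl
    exact (h.2.2 (x l) (by rw [h1]; exact hl)).1 h2
  have hxx : ∀ l m, l ≠ c u → m ≠ c u → l ≠ m → G.Adj (x l) (x m) := by
    intro l m hl hm hlm
    obtain ⟨h1, h2, h3⟩ := hx l hl
    obtain ⟨h1', h2', h3'⟩ := hx m hm
    exact (h3 (x m) h2'.ne' (by rw [h1']; exact hlm.symm)).1 h2'
  have hg : ∀ a b, a ≠ b → G.Adj (g a) (g b) := by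
    intro a b hab
    match a, b, hab with
    | none, none, hab => exact absurd rfl hab
    | none, some none, _ => exact hyu
    | none, some (some l), _ =>
      by_cases hl : l = c u
      · simpa [g, hl] using hyv
      · simpa [g, hl] using hyx l hl
    | some none, none, _ => exact hyu.symm
    | some none, some none, hab => exact absurd rfl hab
    | some none, some (some l), _ =>
      by_cases hl : l = c u
      · simpa [g, hl] using h.1
      · simpa [g, hl] using (hx l hl).2.1
    | some (some l), none, _ =>
      by_cases hl : l = c u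
      · simpa [g, hl] using hyv.symm
      · simpa [g, hl] using (hyx l hl).symm
    | some (some l), some none, _ =>
      by_cases hl : l = c u
      · simpa [g, hl] using h.1.symm
      · simpa [g, hl] using (hx l hl).2.1.symm
    | some (some l), some (some m), hab =>
      have hlm : l ≠ m := fun e => hab (by rw [e])
      by_cases hl : l = c u
      · by_cases hm : m = c u
        · exact absurd (hl.trans hm.symm) hlm
        · simpa [g, hl, hm] using hvx m hm
      · by_cases hm : m = c u
        · simpa [g, hl, hm] using (hvx l hl).symm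
        · simpa [g, hl, hm] using hxx l m hl hm hlm
  have hinj : Function.Injective g := by
    intro a b hab
    by_contra hne
    have := hg a b hne
    rw [hab] at this
    exact G.irrefl this
  have hcard : Fintype.card (Option (Option (Fin k))) = k + 2 := by simp
  apply hcf (Finset.univ.map ⟨g, hinj⟩)
  rw [SimpleGraph.isNClique_iff]
  refine ⟨?_, by simp⟩
  intro a ha b hb hab
  simp only [Finset.coe_map, Function.Embedding.coeFn_mk, Finset.coe_univ, Set.image_univ,
    Set.mem_range] at ha hb
  obtain ⟨a', rfl⟩ := ha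
  obtain ⟨b', rfl⟩ := hb
  exact hg a' b' (fun e => hab (by rw [e]))

/-- A vertex of `X G c u j` has no neighbour of colour `j` adjacent to `u`. -/
theorem noNbr {G : SimpleGraph V} {c : V → Fin k} (hmin : Minimal G c) (hcf : G.CliqueFree (k + 2))
    {u v : V} (h : Bad G c u v) {j : Fin k} (hj : j ≠ c u) {x : V} (hx : X G c u j x) :
    ∀ y, c y = j → G.Adj u y → ¬ G.Adj x y := by
  classical
  intro y hy huy hxy
  have hex : ∀ l, ∃ z, l ≠ c u → X G c u l z := by
    intro l
    by_cases hl : l = c u
    · exact ⟨u, fun e => absurd hl e⟩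
    · obtain ⟨z, hz⟩ := step1 hmin h hl
      exact ⟨z, fun _ => hz⟩
  choose f hf using hex
  refine clique hcf h (Function.update f j x) ?_ y huy.symm ?_ ?_
  · intro l hl
    by_cases hlj : l = j
    · subst hlj; simpa using hx
    · simpa [hlj] using hf l hl
  · exact ((h.2.2 y (by rw [hy]; exact hj)).1 huy).symm
  · intro l hl
    by_cases hlj : l = j
    · subst hlj; simpa using hxy.symm
    · simp only [ne_eq, hlj, not_false_eq_true, Function.update_of_ne]
      obtain ⟨h1, h2, h3⟩ := hf l hl
      exact ((h3 y huy.ne' (by rw [hy]; exact fun e => hlj e.symm)).1 huy).symm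

/-- A bad edge lies in no triangle of its own colour. -/
theorem noTriangle {G : SimpleGraph V} {c : V → Fin k} (hmin : Minimal G c)
    (hcf : G.CliqueFree (k + 2)) {u v : V} (h : Bad G c u v) :
    ∀ y, c y = c u → G.Adj u y → ¬ G.Adj v y := by
  classical
  intro y hy huy hvy
  have hex : ∀ l, ∃ z, l ≠ c u → X G c u l z := by
    intro l
    by_cases hl : l = c u
    · exact ⟨u, fun e => absurd hl e⟩
    · obtain ⟨z, hz⟩ := step1 hmin h hl
      exact ⟨z, fun _ => hz⟩
  choose f hf using hex
  refine clique hcf h f hf y huy.symm hvy.symm ?_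
  intro l hl
  obtain ⟨h1, h2, h3⟩ := hf l hl
  exact ((h3 y huy.ne' (by rw [hy]; exact hl.symm)).1 huy).symm

/-- At least three colours: recolour `w` with a third colour `l`. -/
theorem step5 {G : SimpleGraph V} {c : V → Fin k} (hmin : Minimal G c) {u v : V} (h : Bad G c u v)
    {j : Fin k} (hj : j ≠ c u) {x : V} (hx : X G c u j x) {w : V} (hcw : c w = c u) (hwu : w ≠ u)
    (hwv : w ≠ v) (hnvw : ¬ G.Adj v w) (hxw : G.Adj x w)
    (hwz : ∀ z, z ≠ x → (z = u ∨ c z ≠ c u) → (G.Adj x z ↔ G.Adj w z))
    {l : Fin k} (hl : l ≠ c u) (hlj : l ≠ j) : False := by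
  classical
  obtain ⟨hxj, hux, hxx⟩ := hx
  have huw : G.Adj u w := (hxx w hwu (by rw [hcw]; exact hj.symm)).2 hxw
  set d : V → Fin k := Function.update c w l with hd
  have dw : d w = l := by simp [hd]
  have ho : ∀ z, z ≠ w → d z = c z := fun z hz => by simp [hd, hz]
  -- adjacency of vertices of colour `l`
  have hL : ∀ q, c q = l → ((G.Adj w q ↔ G.Adj v q) ∧ q ≠ x) := by
    intro q hq
    have hqx : q ≠ x := by rintro rfl; exact hlj (hq.symm.trans hxj)
    have hqu : q ≠ u := by rintro rfl; exact hl hq.symm
    have e1 := hwz q hqx (Or.inr (by rw [hq]; exact hl))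
    have e2 := hxx q hqu (by rw [hq]; exact hlj)
    have e3 := h.2.2 q (by rw [hq]; exact hl)
    exact ⟨e1.symm.trans (e2.symm.trans e3), hqx⟩
  have noW : ∀ q, ¬ Bad G d w q := by
    intro q hq
    have hqw : q ≠ w := hq.1.ne'
    have hcq : c q = l := by
      have := hq.2.1
      rw [dw, ho q hqw] at this
      exact this.symm
    have h1 : G.Adj v q := (hL q hcq).1.1 hq.1
    have h2 : G.Adj w v ↔ G.Adj q v := by
      refine hq.2.2 v ?_
      rw [dw, ho v hwv.symm, ← h.2.1]
      exact hl.symm
    exact hnvw (h2.2 h1.symm).symm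
  have key : ∀ p q, Bad G d p q → Bad G c p q := by
    intro p q hb
    have hpw : p ≠ w := by rintro rfl; exact noW q hb
    have hqw : q ≠ w := by rintro rfl; exact noW p hb.symm
    have hcq : c p = c q := by
      have := hb.2.1
      rwa [ho p hpw, ho q hqw] at this
    refine ⟨hb.1, hcq, ?_⟩
    intro z hz
    have hb2 := hb.2.2
    rw [ho p hpw] at hb2
    by_cases hzw : z = w
    · subst hzw
      by_cases hpl : c p = l
      · have h1 := (hL p hpl).1
        have h2 := (hL q (hcq.symm.trans hpl)).1
        have h3 : G.Adj p v ↔ G.Adj q v := by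
          refine hb2 v ?_
          rw [ho v hwv.symm, ← h.2.1, hpl]
          exact hl.symm
        rw [G.adj_comm p z, G.adj_comm q z, h1, h2, G.adj_comm v p, G.adj_comm v q, h3]
      · refine hb2 z ?_
        rw [dw]
        exact fun e => hpl e.symm
    · refine hb2 z ?_
      rw [ho z hzw]
      exact hz
  have hb := hmin _ key u v h
  have huv : G.Adj u w ↔ G.Adj v w := by
    refine hb.2.2 w ?_
    rw [dw, ho u hwu.symm]
    exact hl
  exact hnvw (huv.1 huw)

/-- Exactly two colours: recolour `w` with the other colour `j`, and repair. -/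
theorem step6 {G : SimpleGraph V} {c : V → Fin k} (hmin : Minimal G c) (hcf : G.CliqueFree 4)
    {u v : V} (h : Bad G c u v)
    {j : Fin k} (hj : j ≠ c u) {x : V} (hx : X G c u j x) {w : V} (hcw : c w = c u) (hwu : w ≠ u)
    (hwv : w ≠ v) (hnvw : ¬ G.Adj v w) (hxw : G.Adj x w)
    (hwz : ∀ z, z ≠ x → (z = u ∨ c z ≠ c u) → (G.Adj x z ↔ G.Adj w z))
    (hind : ∀ y, c y = j → G.Adj u y → ¬ G.Adj x y)
    (htwo : ∀ l, l ≠ c u → l = j) : False := by
  classical
  obtain ⟨hxj, hux, hxx⟩ := hx
  have huw : G.Adj u w := (hxx w hwu (by rw [hcw]; exact hj.symm)).2 hxw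
  have hvu : v ≠ u := h.1.ne'
  have hxv : G.Adj v x := (h.2.2 x (by rw [hxj]; exact hj)).1 hux
  have two : ∀ z, c z = c u ∨ c z = j := by
    intro z
    by_cases hz : c z = c u
    · exact Or.inl hz
    · exact Or.inr (htwo _ hz)
  -- four mutually adjacent vertices are impossible
  have K4 : ∀ a b e f : V, G.Adj a b → G.Adj a e → G.Adj a f → G.Adj b e → G.Adj b f → G.Adj e f →
      False := by
    intro a b e f h1 h2 h3 h4 h5 h6
    apply hcf {a, b, e, f}
    rw [SimpleGraph.isNClique_iff, SimpleGraph.isClique_iff]
    refine ⟨?_, ?_⟩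
    · intro p hp q hq hpq
      simp only [Finset.coe_insert, Finset.coe_singleton, Set.mem_insert_iff,
        Set.mem_singleton_iff] at hp hq
      rcases hp with rfl | rfl | rfl | rfl <;> rcases hq with rfl | rfl | rfl | rfl <;>
        first
          | exact absurd rfl hpq
          | assumption
          | (apply SimpleGraph.Adj.symm; assumption)
    · rw [Finset.card_insert_of_notMem, Finset.card_insert_of_notMem,
        Finset.card_insert_of_notMem, Finset.card_singleton]
      · simpa using h6.ne
      · simp only [Finset.mem_insert, Finset.mem_singleton, not_or]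
        exact ⟨h4.ne, h5.ne⟩
      · simp only [Finset.mem_insert, Finset.mem_singleton, not_or]
        exact ⟨h1.ne, h2.ne, h3.ne⟩
  -- the set `P` of vertices to be repaired
  let P : V → Prop := fun p => c p = j ∧ G.Adj x p ∧
    ∃ q, c q = j ∧ ¬ G.Adj q w ∧ G.Adj p q ∧ ∀ z, c z = c u → z ≠ w → (G.Adj p z ↔ G.Adj q z)
  have hPj : ∀ p, P p → c p = j := fun p hp => hp.1
  have hPw : ∀ p, P p → G.Adj p w := by
    intro p hp
    have hpx : p ≠ x := by
      rintro rfl
      exact G.irrefl hp.2.1
    exact ((hwz p hpx (Or.inr (by rw [hp.1]; exact hj))).1 hp.2.1).symm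
  have hPx : ¬ P x := fun hp => G.irrefl hp.2.1
  set d : V → Fin k := fun z => if z = w then j else if P z then c u else c z with hd
  have dw : d w = j := by simp [hd]
  have hPnw : ∀ p, P p → p ≠ w := by
    rintro p hp rfl
    exact hj (hp.1.symm.trans hcw)
  have dP : ∀ p, P p → d p = c u := by
    intro p hp
    simp [hd, hPnw p hp, hp]
  have ho : ∀ z, z ≠ w → ¬ P z → d z = c z := fun z hz hz' => by simp [hd, hz, hz']
  have hnP : ∀ z, c z = c u → ¬ P z := fun z hz hp => hj (hp.1.symm.trans hz)
  have hdi : ∀ z, c z = c u → z ≠ w → d z = c u := fun z hz hzw => by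
    rw [ho z hzw (hnP z hz), hz]
  have hdj : ∀ z, c z = j → ¬ P z → d z = j := fun z hz hzP => by
    have hzw : z ≠ w := by rintro rfl; exact hj (hz.symm.trans hcw)
    rw [ho z hzw hzP, hz]
  have noW : ∀ q, ¬ Bad G d w q := by
    intro q hq
    have hqw : q ≠ w := hq.1.ne'
    have hqP : ¬ P q := by
      intro hP
      have := hq.2.1
      rw [dw, dP q hP] at this
      exact hj this
    have hcq : c q = j := by
      have := hq.2.1
      rw [dw, ho q hqw hqP] at this
      exact this.symm
    by_cases hqx : q = x
    · subst hqx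
      have h2 : G.Adj w v ↔ G.Adj q v := by
        refine hq.2.2 v ?_
        rw [dw, hdi v h.2.1.symm hwv.symm]
        exact hj.symm
      exact hnvw (h2.2 hxv.symm).symm
    · have hxq : G.Adj x q := (hwz q hqx (Or.inr (by rw [hcq]; exact hj))).2 hq.1
      have h2 : G.Adj w u ↔ G.Adj q u := by
        refine hq.2.2 u ?_
        rw [dw, hdi u rfl hwu.symm]
        exact hj.symm
      exact hind q hcq (h2.1 huw.symm).symm hxq
  have noP : ∀ p q, P p → ¬ Bad G d p q := by
    intro p q hp hb
    have hqw : q ≠ w := by rintro rfl; exact noW p hb.symm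
    have hpw := hPw p hp
    by_cases hqP : P q
    · exact K4 x w p q hxw hp.2.1 hqP.2.1 hpw.symm (hPw q hqP).symm hb.1
    · have hcq : c q = c u := by
        have := hb.2.1
        rw [dP p hp, ho q hqw hqP] at this
        exact this.symm
      have h1 : G.Adj p w ↔ G.Adj q w := by
        refine hb.2.2 w ?_
        rw [dw, dP p hp]
        exact hj
      have h2 : G.Adj p x ↔ G.Adj q x := by
        refine hb.2.2 x ?_
        rw [hdj x hxj hPx, dP p hp]
        exact hj
      have hqx : G.Adj q x := h2.1 hp.2.1.symm
      have hqw' : G.Adj q w := h1.1 hpw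
      by_cases hqu : q = u
      · subst hqu
        exact hind p hp.1 hb.1.symm hp.2.1
      · have huq : G.Adj u q := (hxx q hqu (by rw [hcq]; exact hj.symm)).2 hqx.symm
        exact K4 u x w q hux huw huq hxw hqx.symm hqw'.symm
  have key : ∀ p q, Bad G d p q → Bad G c p q := by
    intro p q hb
    have hpw : p ≠ w := by rintro rfl; exact noW q hb
    have hqw : q ≠ w := by rintro rfl; exact noW p hb.symm
    have hpP : ¬ P p := fun hp => noP p q hp hb
    have hqP : ¬ P q := fun hq => noP q p hq hb.symm
    have hcq : c p = c q := by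
      have := hb.2.1
      rwa [ho p hpw hpP, ho q hqw hqP] at this
    refine ⟨hb.1, hcq, ?_⟩
    intro z hz
    have hb2 := hb.2.2
    rw [ho p hpw hpP] at hb2
    rcases two p with hp | hp
    · -- colour `c u`
      have hzj : c z = j := htwo _ (by rw [← hp]; exact hz)
      by_cases hzP : P z
      · obtain ⟨-, hxz, y, hy, hyw, hzy, hyz⟩ := hzP
        have hyP : ¬ P y := fun hyP => hyw (hPw y hyP)
        have e1 : G.Adj p y ↔ G.Adj q y := by
          refine hb2 y ?_
          rw [hdj y hy hyP, hp]
          exact hj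
        have e2 := hyz p hp hpw
        have e3 := hyz q (hcq.symm.trans hp) hqw
        rw [G.adj_comm p z, G.adj_comm q z, e2, e3, G.adj_comm y p, G.adj_comm y q, e1]
      · refine hb2 z ?_
        rw [hdj z hzj hzP, hp]
        exact hj
    · -- colour `j`
      have hzi : c z = c u := by
        rcases two z with h1 | h1
        · exact h1
        · exact absurd (h1.trans hp.symm) hz
      have hq : c q = j := hcq.symm.trans hp
      by_cases hzw : z = w
      · subst hzw
        -- auxiliary claim
        have aux : ∀ a b, c a = j → c b = j → G.Adj a b → ¬ P a →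
            (∀ y, c y = c u → y ≠ z → (G.Adj a y ↔ G.Adj b y)) → G.Adj a z → G.Adj b z := by
          intro a b ha hb' hab haP hy haz
          by_contra hbz
          by_cases hax : a = x
          · subst hax
            exact hbz ((hwz b hab.ne' (Or.inr (by rw [hb']; exact hj))).1 hab).symm
          · have hxa : G.Adj x a := (hwz a hax (Or.inr (by rw [ha]; exact hj))).2 haz.symm
            exact haP ⟨ha, hxa, b, hb', hbz, hab, hy⟩
        have hpq : ∀ y, c y = c u → y ≠ z → (G.Adj p y ↔ G.Adj q y) := by
          intro y hy hyz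
          refine hb2 y ?_
          rw [hdi y hy hyz, hp]
          exact hj.symm
        exact ⟨aux p q hp hq hb.1 hpP hpq,
          aux q p hq hp hb.1.symm hqP (fun y hy hyz => (hpq y hy hyz).symm)⟩
      · refine hb2 z ?_
        rw [hdi z hzi hzw, hp]
        exact hj.symm
  have hb := hmin _ key u v h
  have huv : G.Adj u w ↔ G.Adj v w := by
    refine hb.2.2 w ?_
    rw [dw, hdi u rfl hwu.symm]
    exact hj
  exact hnvw (huv.1 huw)

/-- The degenerate case: `u` has exactly one neighbour of each other colour. -/
theorem step4 [Fintype V] {G : SimpleGraph V} {c : V → Fin k} (hconn : G.Connected)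
    (hmin : Minimal G c)
    (hcf : G.CliqueFree (k + 2)) (hk : 2 ≤ k) (hcard : k + 2 ≤ Fintype.card V)
    {u v : V} (h : Bad G c u v)
    (hone : ∀ j, j ≠ c u → ∀ x, X G c u j x → ∀ y, c y = j → G.Adj u y → y = x) : False := by
  classical
  have hex : ∀ l, ∃ z, l ≠ c u → X G c u l z := by
    intro l
    by_cases hl : l = c u
    · exact ⟨u, fun e => absurd hl e⟩
    · obtain ⟨z, hz⟩ := step1 hmin h hl
      exact ⟨z, fun _ => hz⟩
  choose f hf using hex
  have hvu : v ≠ u := h.1.ne'
  -- the vertices `f j` also lie in `X G c v j`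
  have hf' : ∀ l, l ≠ c u → X G c v l (f l) := by
    intro l hl
    obtain ⟨z, hz⟩ := step1 hmin h.symm (j := l) (by rw [← h.2.1]; exact hl)
    have huz : G.Adj u z := (h.2.2 z (by rw [hz.1]; exact hl)).2 hz.2.1
    have := hone l hl (f l) (hf l hl) z hz.1 huz
    rwa [← this]
  -- some colour other than `c u`
  obtain ⟨j, hj⟩ : ∃ j : Fin k, j ≠ c u := by
    have : Nontrivial (Fin k) := Fin.nontrivial_iff_two_le.2 hk
    exact exists_ne (c u)
  have hNu : ∀ z, c z = c u → G.Adj u z → z = v := by
    intro z hz huz
    by_contra hzv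
    have h1 : G.Adj (f j) z := ((hf j hj).2.2 z huz.ne' (by rw [hz]; exact hj.symm)).1 huz
    have h2 : G.Adj v z := ((hf' j hj).2.2 z hzv (by rw [hz]; exact hj.symm)).2 h1
    exact noTriangle hmin hcf h z hz huz h2
  have hNv : ∀ z, c z = c u → G.Adj v z → z = u := by
    intro z hz hvz
    by_contra hzu
    have h1 : G.Adj (f j) z := ((hf' j hj).2.2 z hvz.ne' (by rw [hz]; exact hj.symm)).1 hvz
    have h2 : G.Adj u z := ((hf j hj).2.2 z hzu (by rw [hz]; exact hj.symm)).2 h1
    exact noTriangle hmin hcf h z hz h2 hvz
  have hNf : ∀ l, l ≠ c u → ∀ z, c z = l → ¬ G.Adj (f l) z := by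
    intro l hl z hz hlz
    obtain ⟨w, hw1, hw2, hw3, hw4⟩ :=
      step3 hmin h hl (hf l hl) (noNbr hmin hcf h hl (hf l hl))
    have huw : G.Adj u w := ((hf l hl).2.2 w hw2 (by rw [hw1]; exact hl.symm)).2 hw3
    have hwv : w = v := hNu w hw1 huw
    subst hwv
    have hvz : G.Adj w z := (hw4 z hlz.ne' (Or.inr (by rw [hz]; exact hl))).1 hlz
    have huz : G.Adj u z := (h.2.2 z (by rw [hz]; exact hl)).2 hvz
    have := hone l hl (f l) (hf l hl) z hz huz
    exact hlz.ne' this
  let K : V → Prop := fun z => z = u ∨ z = v ∨ ∃ l, l ≠ c u ∧ z = f l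
  have hKu : ∀ z, G.Adj u z → K z := by
    intro z hz
    by_cases hcz : c z = c u
    · exact Or.inr (Or.inl (hNu z hcz hz))
    · exact Or.inr (Or.inr ⟨c z, hcz, hone _ hcz _ (hf _ hcz) z rfl hz⟩)
  have hKv : ∀ z, G.Adj v z → K z := by
    intro z hz
    by_cases hcz : c z = c u
    · exact Or.inl (hNv z hcz hz)
    · exact hKu z ((h.2.2 z hcz).2 hz)
  have hKf : ∀ l, l ≠ c u → ∀ z, G.Adj (f l) z → K z := by
    intro l hl z hz
    by_cases hzu : z = u
    · exact Or.inl hzu
    · by_cases hcz : c z = l
      · exact absurd hz (hNf l hl z hcz)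
      · exact hKu z (((hf l hl).2.2 z hzu hcz).2 hz)
  have hKall : ∀ z, K z := by
    intro z
    have hr := (SimpleGraph.reachable_iff_reflTransGen u z).1 (hconn.preconnected u z)
    induction hr with
    | refl => exact Or.inl rfl
    | tail _ hab ih =>
      rcases ih with rfl | rfl | ⟨l, hl, rfl⟩
      · exact hKu _ hab
      · exact hKv _ hab
      · exact hKf l hl _ hab
  let g : Option (Fin k) → V := fun o =>
    match o with
    | none => u
    | some l => if l = c u then v else f l
  have hg : Function.Surjective g := by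
    intro z
    rcases hKall z with rfl | rfl | ⟨l, hl, rfl⟩
    · exact ⟨none, rfl⟩
    · exact ⟨some (c u), by simp [g]⟩
    · exact ⟨some l, by simp [g, hl]⟩
  have := Fintype.card_le_of_surjective g hg
  simp at this
  omega

/-- A connected graph with at least `k + 2` vertices and no clique of size `k + 2` (`k ≥ 2`) has a
`k`-colouring of its vertices without bad edges. -/
theorem exists_good [Fintype V] {G : SimpleGraph V} (hconn : G.Connected)
    (hcf : G.CliqueFree (k + 2)) (hk : 2 ≤ k) (hcard : k + 2 ≤ Fintype.card V) :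
    ∃ c : V → Fin k, ∀ u v, ¬ Bad G c u v := by
  classical
  obtain ⟨c, hmin⟩ := exists_minimal G (k := k) (by omega)
  refine ⟨c, fun u v h => ?_⟩
  by_cases hone : ∀ j, j ≠ c u → ∀ x, X G c u j x → ∀ y, c y = j → G.Adj u y → y = x
  · exact step4 hconn hmin hcf hk hcard h hone
  push Not at hone
  obtain ⟨j, hj, x, hx, y, hy, huy, hyx⟩ := hone
  have hind := noNbr hmin hcf h hj hx
  obtain ⟨w, hcw, hwu, hxw, hwz⟩ := step3 hmin h hj hx hind
  have hwv : w ≠ v := by
    rintro rfl
    have h1 : G.Adj w y := (h.2.2 y (by rw [hy]; exact hj)).1 huy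
    have h2 : G.Adj x y := (hwz y hyx (Or.inr (by rw [hy]; exact hj))).2 h1
    exact hind y hy huy h2
  have huw : G.Adj u w := (hx.2.2 w hwu (by rw [hcw]; exact hj.symm)).2 hxw
  have hnvw : ¬ G.Adj v w := noTriangle hmin hcf h w hcw huw
  by_cases hthree : ∃ l, l ≠ c u ∧ l ≠ j
  · obtain ⟨l, hl, hlj⟩ := hthree
    exact step5 hmin h hj hx hcw hwu hwv hnvw hxw hwz hl hlj
  · push Not at hthree
    have hk2 : k = 2 := by
      by_contra hne
      have h3 : 2 < k := by omega
      have : ∃ l : Fin k, l ∉ ({c u, j} : Finset (Fin k)) := by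
        by_contra hcon
        push Not at hcon
        have hsub : (Finset.univ : Finset (Fin k)) ⊆ {c u, j} := fun l _ => hcon l
        have := Finset.card_le_card hsub
        have h4 := Finset.card_le_two (a := c u) (b := j)
        simp at this
        omega
      obtain ⟨l, hl⟩ := this
      simp only [Finset.mem_insert, Finset.mem_singleton, not_or] at hl
      exact hl.2 (hthree l hl.1)
    subst hk2
    exact step6 hmin hcf h hj hx hcw hwu hwv hnvw hxw hwz hind hthree

/-- The bound on the local (adjacency) dimension, stated with distances. -/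
theorem exists_set [Fintype V] {G : SimpleGraph V} (hconn : G.Connected)
    (hcf : G.CliqueFree (k + 2)) (hk : 2 ≤ k) (hcard : k + 2 ≤ Fintype.card V) :
    ∃ W : Finset V, (∀ u v : V, G.Adj u v → ∃ w ∈ W, G.dist u w ≠ G.dist v w) ∧
      k * W.card ≤ (k - 1) * Fintype.card V := by
  classical
  obtain ⟨c, hc⟩ := exists_good hconn hcf hk hcard
  -- a largest colour class
  obtain ⟨i, hi⟩ : ∃ i : Fin k, Fintype.card V ≤ k * (Finset.univ.filter (fun z => c z = i)).card := by
    by_contra hcon
    push Not at hcon
    have h1 : (Finset.univ : Finset V).card =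
        ∑ i : Fin k, (Finset.univ.filter (fun z => c z = i)).card :=
      Finset.card_eq_sum_card_fiberwise (fun z _ => Finset.mem_univ _)
    have h2 : k * Fintype.card V = ∑ i : Fin k, k * (Finset.univ.filter (fun z => c z = i)).card := by
      rw [← Finset.mul_sum, ← h1, Finset.card_univ]
    have h3 : ∑ i : Fin k, k * (Finset.univ.filter (fun z => c z = i)).card <
        ∑ _i : Fin k, Fintype.card V := by
      apply Finset.sum_lt_sum_of_nonempty
      · exact ⟨⟨0, by omega⟩, Finset.mem_univ _⟩
      · intro i _
        exact hcon i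
    rw [← h2, Finset.sum_const, Finset.card_univ, Fintype.card_fin, smul_eq_mul] at h3
    exact lt_irrefl _ h3
  refine ⟨Finset.univ.filter (fun z => c z ≠ i), ?_, ?_⟩
  · intro u v huv
    by_cases hu : c u = i
    · by_cases hv : c v = i
      · have hb := hc u v
        simp only [Bad, not_and] at hb
        have := hb huv (hu.trans hv.symm)
        push Not at this
        obtain ⟨w, hw, hw'⟩ := this
        refine ⟨w, by simpa [hu] using hw, ?_⟩
        have hwu : w ≠ u := by rintro rfl; exact hw rfl
        have hwv : w ≠ v := by rintro rfl; exact hw (hv.trans hu.symm)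
        rcases hw' with ⟨a, b⟩ | ⟨a, b⟩
        · intro e
          rw [SimpleGraph.dist_eq_one_iff_adj.2 a] at e
          exact b (SimpleGraph.dist_eq_one_iff_adj.1 e.symm)
        · intro e
          rw [SimpleGraph.dist_eq_one_iff_adj.2 b] at e
          exact a (SimpleGraph.dist_eq_one_iff_adj.1 e)
      · refine ⟨v, by simpa using hv, ?_⟩
        rw [SimpleGraph.dist_self, SimpleGraph.dist_eq_one_iff_adj.2 huv]
        exact one_ne_zero
    · refine ⟨u, by simpa using hu, ?_⟩
      rw [SimpleGraph.dist_self, SimpleGraph.dist_eq_one_iff_adj.2 huv.symm]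
      exact zero_ne_one
  · have h1 : (Finset.univ.filter (fun z => c z = i)).card +
        (Finset.univ.filter (fun z => c z ≠ i)).card = Fintype.card V := by
      rw [Finset.card_filter_add_card_filter_not (s := (Finset.univ : Finset V)) (fun z => c z = i)]
      exact Finset.card_univ
    obtain ⟨m, rfl⟩ : ∃ m, k = m + 1 := ⟨k - 1, by omega⟩
    simp only [Nat.add_sub_cancel]
    nlinarith

end Pool.Agent.Y780.LocalDim
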